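import Pool.Agent.Q294.Greedy.Exist

/-!
# MP_3173ec: the overhead of the greedy random walk on `K_n` is not linear for even `n`

For even `n` all degrees of `K_n` are odd. Each time the stuck walk hits a vertex of odd residual
degree, the following greedy run lowers the number `O` of such vertices by exactly two; runs from
vertices of even residual degree do not change `O`. So
`(number of uncrossed edges) + (n-1)/2 * H_{O/2}` is an exact compensator for the number of steps as
long as `O > 0`, and `E[C_E(K_n)] ≥ n(n-1)/2 + (n-1)/2 * H_{n/2-1}` for every even `n`,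
whatever rule is used to choose among the uncrossed edges.
-/

open MeasureTheory ProbabilityTheory Filter Topology
open scoped ENNReal

namespace Pool.Agent.Results.MP_3173ec_pr.EvenOverhead

open Q294.Greedy

/-- The real number `E` is the expected edge cover time of a greedy random walk with the uniform
rule on `K_n` (and this expectation is finite). -/
def IsExpectedCoverTime (n : ℕ) (E : ℝ) : Prop :=
  ∃ (Ω : Type) (_ : MeasurableSpace Ω) (P : Measure Ω) (X : ℕ → Ω → Fin n) (x₀ : Fin n),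
    IsProbabilityMeasure P ∧ IsGRW (⊤ : SimpleGraph (Fin n)) P X x₀ ∧
      expCover (⊤ : SimpleGraph (Fin n)) P X = ENNReal.ofReal E ∧ 0 ≤ E

/-- The disproof of Q1. -/
theorem result :
    -- for each `n ≥ 2` and each start there is a greedy random walk with the uniform rule
    (∀ n : ℕ, 2 ≤ n → ∀ x₀ : Fin n,
      ∃ (Ω : Type) (_ : MeasurableSpace Ω) (P : Measure Ω) (X : ℕ → Ω → Fin n),
        IsProbabilityMeasure P ∧ IsGRW (⊤ : SimpleGraph (Fin n)) P X x₀) ∧
    -- the expected cover time is finite, for every rule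
    (∀ n : ℕ, 2 ≤ n → ∀ (Ω : Type) (_ : MeasurableSpace Ω) (P : Measure Ω)
      (X : ℕ → Ω → Fin n) (x₀ : Fin n), IsProbabilityMeasure P →
        IsGreedyWalk (⊤ : SimpleGraph (Fin n)) P X x₀ →
          expCover (⊤ : SimpleGraph (Fin n)) P X < ⊤) ∧
    -- the lower bound for even `n`, for every rule
    (∀ n : ℕ, 2 ≤ n → Even n → ∀ (Ω : Type) (_ : MeasurableSpace Ω) (P : Measure Ω)
      (X : ℕ → Ω → Fin n) (x₀ : Fin n), IsProbabilityMeasure P →
        IsGreedyWalk (⊤ : SimpleGraph (Fin n)) P X x₀ →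
          ENNReal.ofReal (n.choose 2 + ((n : ℝ) - 1) / 2 * (harmonic (n / 2 - 1) : ℝ)) ≤
            expCover (⊤ : SimpleGraph (Fin n)) P X) ∧
    -- Q1 fails, and its negated form holds: the limsup is infinite
    (∀ e : ℕ → ℝ, (∀ n, 2 ≤ n → IsExpectedCoverTime n (e n)) →
      (¬ ∃ (c C : ℝ) (N : ℕ), 0 < c ∧ c ≤ C ∧ ∀ n, N ≤ n →
        c * n ≤ e n - n.choose 2 ∧ e n - n.choose 2 ≤ C * n) ∧
      ∀ M : ℝ, ∃ᶠ n in atTop, M < (e n - n.choose 2) / n) ∧
    -- such a function `e` exists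
    (∃ e : ℕ → ℝ, ∀ n, 2 ≤ n → IsExpectedCoverTime n (e n)) := by
  have hex : ∀ n : ℕ, 2 ≤ n → ∀ x₀ : Fin n,
      ∃ (Ω : Type) (_ : MeasurableSpace Ω) (P : Measure Ω) (X : ℕ → Ω → Fin n),
        IsProbabilityMeasure P ∧ IsGRW (⊤ : SimpleGraph (Fin n)) P X x₀ := by
    intro n hn x₀
    have : Nonempty (Fin n) := ⟨x₀⟩
    have hG : ∀ x : Fin n, ((⊤ : SimpleGraph (Fin n)).neighborFinset x).Nonempty := by
      intro x
      have : Nontrivial (Fin n) := Fin.nontrivial_iff_two_le.2 hn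
      obtain ⟨y, hy⟩ := exists_ne x
      exact ⟨y, by simpa using hy⟩
    exact ⟨ℕ × Finset (Fin n) → Fin n, inferInstance, QQ, XX (⊤ : SimpleGraph (Fin n)) x₀,
      inferInstance, exists_GRW hG x₀⟩
  have hfin : ∀ n : ℕ, 2 ≤ n → ∀ (Ω : Type) (_ : MeasurableSpace Ω) (P : Measure Ω)
      (X : ℕ → Ω → Fin n) (x₀ : Fin n), IsProbabilityMeasure P →
        IsGreedyWalk (⊤ : SimpleGraph (Fin n)) P X x₀ →
          expCover (⊤ : SimpleGraph (Fin n)) P X < ⊤ := by
    intro n hn Ω _ P X x₀ _ hW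
    have : Nonempty (Fin n) := ⟨x₀⟩
    exact finite_bound hW (by simpa using hn)
  have hlow : ∀ n : ℕ, 2 ≤ n → Even n → ∀ (Ω : Type) (_ : MeasurableSpace Ω) (P : Measure Ω)
      (X : ℕ → Ω → Fin n) (x₀ : Fin n), IsProbabilityMeasure P →
        IsGreedyWalk (⊤ : SimpleGraph (Fin n)) P X x₀ →
          ENNReal.ofReal (n.choose 2 + ((n : ℝ) - 1) / 2 * (harmonic (n / 2 - 1) : ℝ)) ≤
            expCover (⊤ : SimpleGraph (Fin n)) P X := by
    intro n hn he Ω _ P X x₀ _ hW
    have : Nonempty (Fin n) := ⟨x₀⟩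
    have := lower_bound hW (by simpa using hn) (by simpa using he)
    simpa using this
  -- the real-valued lower bound
  have hreal : ∀ (n : ℕ) (E : ℝ), 2 ≤ n → Even n → IsExpectedCoverTime n E →
      ((n : ℝ) - 1) / 2 * Real.log ((n / 2 : ℕ) : ℝ) ≤ E - n.choose 2 := by
    rintro n E hn he ⟨Ω, _, P, X, x₀, hP, hW, hE, hE0⟩
    have h1 := hlow n hn he Ω _ P X x₀ hP hW.isGreedyWalk
    rw [hE] at h1
    have h2 := (ENNReal.ofReal_le_ofReal_iff hE0).1 h1
    have h3 : Real.log ((n / 2 : ℕ) : ℝ) ≤ (harmonic (n / 2 - 1) : ℝ) := by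
      have := log_add_one_le_harmonic (n / 2 - 1)
      rwa [show n / 2 - 1 + 1 = n / 2 by omega] at this
    have h4 : (0 : ℝ) ≤ ((n : ℝ) - 1) / 2 := by
      have : (2 : ℝ) ≤ n := by exact_mod_cast hn
      linarith
    have h5 := mul_le_mul_of_nonneg_left h3 h4
    linarith
  have hlimsup : ∀ e : ℕ → ℝ, (∀ n, 2 ≤ n → IsExpectedCoverTime n (e n)) →
      ∀ M : ℝ, ∃ᶠ n in atTop, M < (e n - n.choose 2) / n := by
    intro e he M
    rw [frequently_atTop]
    intro N
    have hlog : Tendsto (fun m : ℕ => Real.log (m : ℝ)) atTop atTop :=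
      Real.tendsto_log_atTop.comp tendsto_natCast_atTop_atTop
    obtain ⟨m, hm1, hm2⟩ := ((hlog.eventually_gt_atTop (4 * |M|)).and
      (eventually_ge_atTop (max N 1))).exists
    have hmN : N ≤ m := (le_max_left _ _).trans hm2
    have hm0 : 1 ≤ m := (le_max_right _ _).trans hm2
    refine ⟨2 * m, by omega, ?_⟩
    have h1 := hreal (2 * m) (e (2 * m)) (by omega) ⟨m, by ring⟩ (he (2 * m) (by omega))
    rw [show 2 * m / 2 = m by omega] at h1
    have hmr : (1 : ℝ) ≤ m := by exact_mod_cast hm0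
    have hpos : (0 : ℝ) < ((2 * m : ℕ) : ℝ) := by push_cast; linarith
    rw [lt_div_iff₀ hpos]
    refine lt_of_lt_of_le ?_ h1
    push_cast
    have hM := le_abs_self M
    have hM0 := abs_nonneg M
    nlinarith
  refine ⟨hex, hfin, hlow, fun e he => ⟨?_, hlimsup e he⟩, ?_⟩
  · rintro ⟨c, C, N, hc, hcC, h⟩
    have h1 := hlimsup e he C
    rw [frequently_atTop] at h1
    obtain ⟨n, hn, h2⟩ := h1 (max N 1)
    have hn1 : 1 ≤ n := (le_max_right _ _).trans hn
    have hpos : (0 : ℝ) < n := by exact_mod_cast hn1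
    rw [lt_div_iff₀ hpos] at h2
    have h3 := (h n ((le_max_left _ _).trans hn)).2
    linarith
  · have h : ∀ n : ℕ, ∃ E : ℝ, 2 ≤ n → IsExpectedCoverTime n E := by
      intro n
      by_cases hn : 2 ≤ n
      · obtain ⟨Ω, mΩ, P, X, hP, hW⟩ := hex n hn ⟨0, by omega⟩
        refine ⟨(expCover (⊤ : SimpleGraph (Fin n)) P X).toReal, fun _ =>
          ⟨Ω, mΩ, P, X, _, hP, hW, ?_, ENNReal.toReal_nonneg⟩⟩
        rw [ENNReal.ofReal_toReal]
        exact (hfin n hn Ω mΩ P X _ hP hW.isGreedyWalk).ne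
      · exact ⟨0, fun h => absurd h hn⟩
    choose e he using h
    exact ⟨e, he⟩

end Pool.Agent.Results.MP_3173ec_pr.EvenOverhead
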